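import Pool.Agent.Lib.DD.Q1Fin85
import Pool.Agent.Lib.DD.A1Fin65
import Pool.Agent.Lib.DD.A2_FIN

set_option autoImplicit false

open Pool.Agent.DD.Stmt

theorem Pool.Agent.Results.MP_9dcaa2_al.DsEqGrt.result : ev x (-y) '' grt = ds :=
  q1_fin (Pool.Agent.DD.F.q1_of_A Pool.Agent.DD.F.st_A1 Pool.Agent.DD.F.st_A2)
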