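import Pool.Agent.Lib.DD.F_CL
import Pool.Agent.Lib.DD.F_CO
import Pool.Agent.Lib.DD.F_CORE
import Pool.Agent.Lib.DD.F_DEP
import Pool.Agent.Lib.DD.F_DL
import Pool.Agent.Lib.DD.F_DROP
import Pool.Agent.Lib.DD.F_EX
import Pool.Agent.Lib.DD.F_GAM
import Pool.Agent.Lib.DD.F_GRT
import Pool.Agent.Lib.DD.F_LAT
import Pool.Agent.Lib.DD.F_MAIN
import Pool.Agent.Lib.DD.F_MOD
import Pool.Agent.Lib.DD.F_PHI
import Pool.Agent.Lib.DD.F_STAR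
import Pool.Agent.Lib.DD.Stmt

set_option autoImplicit false

open Pool.Agent.DD.Stmt

theorem Pool.Agent.Results.MP_9dcaa2_al.GrtFree.result :
    ∃ (D : L → LieDerivation ℚ L L) (Φ : FreeLieAlgebra ℚ ℕ →ₗ[ℚ] L),
      (∀ ψ, D ψ x = 0 ∧ D ψ y = ⁅y, ψ⁆) ∧ Function.Injective Φ ∧ Set.range Φ = grt ∧
      (∀ a b, Φ ⁅a, b⁆ = ⁅Φ a, Φ b⁆ + D (Φ a) (Φ b) - D (Φ b) (Φ a)) ∧
      ∀ (k : ℕ) (c : ℚ), ev (c • x) (c • y) (Φ (FreeLieAlgebra.of ℚ k)) =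
        c ^ (2 * k + 3) • Φ (FreeLieAlgebra.of ℚ k) :=
  open Pool.Agent.DD.F hiding L x y grt in
  main (st_CORE (st_LAT st_CO) st_CL st_EX st_DEP (st_DROP st_CO) (st_STAR st_CO) st_GAM st_PHI
    st_MOD) st_PHI st_DL st_GRT st_CL
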